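import Mathlib

set_option autoImplicit false

namespace Pool.Agent.H.MP_1358e2_al

open Subgroup

lemma trace {Γ Ω : Type*} [Group Γ] [MulAction Γ Ω] (S : Set Γ) (g : Γ) (hg : g ∈ closure S) :
    ∀ ω : Ω, ∃ T : Set Ω, T.Finite ∧ ∀ (X : Set Ω) (ρ : Γ →* Equiv.Perm X),
      (∀ s ∈ S, ∀ x : X, s • (x : Ω) ∈ X → (ρ s x : Ω) = s • (x : Ω)) → T ⊆ X →
      ∀ h : ω ∈ X, (ρ g ⟨ω, h⟩ : Ω) = g • ω := by
  induction hg using closure_induction with
  | mem s hs =>
    intro ω
    exact ⟨{s • ω}, Set.finite_singleton _, fun X ρ h1 h2 h => h1 s hs ⟨ω, h⟩ (h2 rfl)⟩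
  | one => intro ω; exact ⟨∅, Set.finite_empty, fun X ρ _ _ h => by simp⟩
  | mul x y _ _ hx hy =>
    intro ω
    obtain ⟨T, hT, h1⟩ := hx (y • ω)
    obtain ⟨T', hT', h2⟩ := hy ω
    refine ⟨insert (y • ω) (T ∪ T'), (hT.union hT').insert _, fun X ρ hρ hX h => ?_⟩
    have m : y • ω ∈ X := hX (Or.inl rfl)
    have e : ρ y ⟨ω, h⟩ = ⟨y • ω, m⟩ :=
      Subtype.ext (h2 X ρ hρ (fun z hz => hX (Or.inr (Or.inr hz))) h)
    rw [map_mul, Equiv.Perm.mul_apply, e, h1 X ρ hρ (fun z hz => hX (Or.inr (Or.inl hz))) m,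
      mul_smul]
  | inv x _ hx =>
    intro ω
    obtain ⟨T, hT, h1⟩ := hx (x⁻¹ • ω)
    refine ⟨insert (x⁻¹ • ω) T, hT.insert _, fun X ρ hρ hX h => ?_⟩
    have m : x⁻¹ • ω ∈ X := hX (Or.inl rfl)
    have e : ρ x ⟨x⁻¹ • ω, m⟩ = ⟨ω, h⟩ :=
      Subtype.ext (by rw [h1 X ρ hρ (fun z hz => hX (Or.inr hz)) m, smul_inv_smul])
    rw [← e, map_inv, Equiv.Perm.inv_def, Equiv.symm_apply_apply]

lemma free_struct {A Y : Type*} [Group A] [MulAction A Y] (hf : ∀ (a : A) (y : Y), a • y = y → a = 1) :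
    ∃ e : Quotient (MulAction.orbitRel A Y) × A ≃ Y, ∀ o (a b : A), e (o, a * b) = a • e (o, b) := by
  refine ⟨Equiv.ofBijective (fun p => p.2 • p.1.out) ⟨?_, ?_⟩, fun o a b => mul_smul _ _ _⟩
  · rintro ⟨o, a⟩ ⟨o', a'⟩ h
    simp only at h
    have h1 : o = o' := by
      rw [← o.out_eq, ← o'.out_eq]
      apply Quotient.sound
      exact ⟨a⁻¹ * a', by simp only [mul_smul, ← h, inv_smul_smul]⟩
    subst h1
    have h2 : a⁻¹ * a' = 1 := hf _ o.out (by simp only [mul_smul, ← h, inv_smul_smul])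
    rw [inv_mul_eq_one.1 h2]
  · intro y
    obtain ⟨a, ha⟩ : y ∈ MulAction.orbit A (Quotient.mk (MulAction.orbitRel A Y) y).out :=
      (MulAction.orbitRel A Y).symm (Quotient.mk_out (s := MulAction.orbitRel A Y) y)
    exact ⟨(_, a), ha⟩

lemma free_equiv {A Y Z : Type*} [Group A] [Finite A] [MulAction A Y] [MulAction A Z] [Finite Y]
    [Finite Z] (hY : ∀ (a : A) (y : Y), a • y = y → a = 1)
    (hZ : ∀ (a : A) (y : Z), a • y = y → a = 1) (h : Nat.card Y = Nat.card Z) :
    ∃ e : Y ≃ Z, ∀ (a : A) y, e (a • y) = a • e y := by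
  obtain ⟨e1, h1⟩ := free_struct hY
  obtain ⟨e2, h2⟩ := free_struct hZ
  have c1 := Nat.card_congr e1
  have c2 := Nat.card_congr e2
  rw [Nat.card_prod] at c1 c2
  have c3 : Nat.card (Quotient (MulAction.orbitRel A Y)) =
      Nat.card (Quotient (MulAction.orbitRel A Z)) :=
    Nat.eq_of_mul_eq_mul_right (Nat.card_pos (α := A)) (by rw [c1, c2, h])
  obtain ⟨e⟩ := Finite.card_eq.1 c3
  refine ⟨e1.symm.trans ((e.prodCongr (Equiv.refl A)).trans e2), fun a y => ?_⟩
  obtain ⟨⟨o, b⟩, rfl⟩ := e1.surjective y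
  rw [← h1]
  simp [h2]

open HNNExtension in
theorem hnn_finite {Q : Type} [Group Q] [Finite Q] (A B : Subgroup Q) (φ : A ≃* B)
    (g : HNNExtension Q A B φ) (hg : g ≠ 1) :
    ∃ (P : Type) (_ : Group P) (_ : Finite P) (ρ : HNNExtension Q A B φ →* P), ρ g ≠ 1 := by
  classical
  let S : Set (HNNExtension Q A B φ) := insert t (Set.range of)
  have hS : g ∈ closure S := by
    clear hg
    induction g using HNNExtension.induction_on with
    | of q => exact subset_closure (Or.inr ⟨q, rfl⟩)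
    | t => exact subset_closure (Or.inl rfl)
    | mul x y hx hy => exact mul_mem hx hy
    | inv x hx => exact inv_mem hx
  obtain ⟨T, hT, h1⟩ := trace S g hS (1 : HNNExtension Q A B φ)
  let X : Set (HNNExtension Q A B φ) := Set.image2 (fun q x => of q * x) Set.univ (insert 1 T)
  have hX : X.Finite := Set.Finite.image2 _ Set.finite_univ (hT.insert _)
  have hXq : ∀ q : Q, ∀ x ∈ X, of q * x ∈ X := by
    rintro q _ ⟨q', -, x, hx, rfl⟩
    exact ⟨q * q', trivial, x, hx, by simp only [map_mul, mul_assoc]⟩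
  have hXq' : ∀ (q : Q) x, of q * x ∈ X → x ∈ X := fun q x h => by
    simpa [← mul_assoc, ← map_mul] using hXq q⁻¹ _ h
  have hTX : insert 1 T ⊆ X := fun x hx => ⟨1, trivial, x, hx, by simp⟩
  let D1 : Set (HNNExtension Q A B φ) := {x | x ∈ X ∧ t * x ∈ X}
  let D2 : Set (HNNExtension Q A B φ) := {x | x ∈ X ∧ t⁻¹ * x ∈ X}
  have hD : D2 = (fun x => t * x) '' D1 := by
    ext y
    constructor
    · rintro ⟨a, b⟩
      exact ⟨t⁻¹ * y, ⟨b, by simpa using a⟩, by simp⟩
    · rintro ⟨x, ⟨a, b⟩, rfl⟩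
      exact ⟨b, by simpa using a⟩
  have hc : Nat.card (X \ D1 : Set _) = Nat.card (X \ D2 : Set _) := by
    rw [Nat.card_coe_set_eq, Nat.card_coe_set_eq,
      Set.ncard_sdiff (fun x hx => hx.1) (hX.subset fun x hx => hx.1),
      Set.ncard_sdiff (fun x hx => hx.1) (hX.subset fun x hx => hx.1), hD,
      Set.ncard_image_of_injective _ (mul_right_injective t)]
  have f1 : Finite (X \ D1 : Set _) := (hX.subset Set.sdiff_subset).to_subtype
  have f2 : Finite (X \ D2 : Set _) := (hX.subset Set.sdiff_subset).to_subtype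
  have f3 : Finite X := hX.to_subtype
  let m1 : MulAction A (X \ D1 : Set _) :=
    { smul := fun a x => ⟨of (a : Q) * (x : HNNExtension Q A B φ), hXq _ _ x.2.1, fun h => x.2.2 ⟨x.2.1, by
        have := h.2
        rw [← mul_assoc, t_mul_of, mul_assoc] at this
        exact hXq' _ _ this⟩⟩
      one_smul := fun x => Subtype.ext (by change of ((1 : A) : Q) * _ = _; simp)
      mul_smul := fun a b x => Subtype.ext (by
        change of ((a * b : A) : Q) * _ = of (a : Q) * (of (b : Q) * _); simp [mul_assoc]) }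
  let m2 : MulAction A (X \ D2 : Set _) :=
    { smul := fun a x => ⟨of (φ a : Q) * (x : HNNExtension Q A B φ), hXq _ _ x.2.1, fun h => x.2.2 ⟨x.2.1, by
        have := h.2
        rw [← mul_assoc, inv_t_mul_of, mul_assoc] at this
        exact hXq' _ _ this⟩⟩
      one_smul := fun x => Subtype.ext (by change of ((φ 1 : B) : Q) * _ = _; simp)
      mul_smul := fun a b x => Subtype.ext (by
        change of ((φ (a * b) : B) : Q) * _ = of (φ a : Q) * (of (φ b : Q) * _)
        simp [mul_assoc]) }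
  obtain ⟨e, he⟩ := free_equiv (A := A) (Y := (X \ D1 : Set _)) (Z := (X \ D2 : Set _))
    (fun a y h => by
      have h2 : of (a : Q) * (y : HNNExtension Q A B φ) = (y : HNNExtension Q A B φ) :=
        congrArg Subtype.val h
      have h3 : of (φ := φ) (a : Q) = of 1 := by simpa using h2
      exact Subtype.ext (of_injective φ h3))
    (fun a y h => by
      have h2 : of (φ a : Q) * (y : HNNExtension Q A B φ) = (y : HNNExtension Q A B φ) :=
        congrArg Subtype.val h
      have h3 : of (φ := φ) (φ a : Q) = of 1 := by simpa using h2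
      have h4 : φ a = 1 := Subtype.ext (of_injective φ h3)
      simpa using h4) hc
  let τ0 : X → X := fun x =>
    if h : t * (x : HNNExtension Q A B φ) ∈ X then ⟨_, h⟩
    else ⟨e ⟨x, x.2, fun h' => h h'.2⟩, (e _).2.1⟩
  have hinj : Function.Injective τ0 := by
    intro x y h
    simp only [τ0] at h
    split_ifs at h with hx hy hy
    · exact Subtype.ext (mul_left_cancel (congrArg Subtype.val h))
    · exfalso
      have h2 := congrArg Subtype.val h
      simp only at h2
      refine (e ⟨y, y.2, fun h' => hy h'.2⟩).2.2 ⟨(e _).2.1, ?_⟩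
      rw [← h2]; simp
    · exfalso
      have h2 := congrArg Subtype.val h
      simp only at h2
      refine (e ⟨x, x.2, fun h' => hx h'.2⟩).2.2 ⟨(e _).2.1, ?_⟩
      rw [h2]; simp
    · have h2 := congrArg Subtype.val h
      simp only at h2
      have h3 := congrArg Subtype.val (e.injective (Subtype.ext h2))
      exact Subtype.ext h3
  let τ : Equiv.Perm X := Equiv.ofBijective τ0 (Finite.injective_iff_bijective.1 hinj)
  let m3 : MulAction Q X :=
    { smul := fun q x => ⟨of q * (x : HNNExtension Q A B φ), hXq _ _ x.2⟩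
      one_smul := fun x => Subtype.ext (by change of (1 : Q) * _ = _; simp)
      mul_smul := fun a b x => Subtype.ext (by
        change of (a * b : Q) * _ = of (a : Q) * (of (b : Q) * _); simp [mul_assoc]) }
  let β : Q →* Equiv.Perm X := MulAction.toPermHom Q X
  have hβ : ∀ q (x : X), (β q x : HNNExtension Q A B φ) = of q * (x : HNNExtension Q A B φ) :=
    fun _ _ => rfl
  have hx : ∀ a : A, τ * β a = β (φ a : Q) * τ := by
    intro a
    ext x
    change (τ0 (β a x) : HNNExtension Q A B φ) = of (φ a : Q) * (τ0 x : HNNExtension Q A B φ)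
    by_cases h : t * (x : HNNExtension Q A B φ) ∈ X
    · have h' : t * (β a x : HNNExtension Q A B φ) ∈ X := by
        rw [hβ, ← mul_assoc, t_mul_of, mul_assoc]; exact hXq _ _ h
      simp only [τ0, dif_pos h, dif_pos h']
      rw [hβ, ← mul_assoc, t_mul_of, mul_assoc]
    · have h' : t * (β a x : HNNExtension Q A B φ) ∉ X := by
        rw [hβ, ← mul_assoc, t_mul_of, mul_assoc]; exact fun h2 => h (hXq' _ _ h2)
      simp only [τ0, dif_neg h, dif_neg h']
      exact congrArg Subtype.val (he a ⟨x, x.2, fun h' => h h'.2⟩)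
  refine ⟨Equiv.Perm X, inferInstance, inferInstance, lift β τ hx, fun h0 => hg ?_⟩
  have := h1 X (lift β τ hx) (by
    rintro s (rfl | ⟨q, rfl⟩) x hs
    · rw [lift_t]
      change (τ0 x : HNNExtension Q A B φ) = _
      have hs' : t * (x : HNNExtension Q A B φ) ∈ X := hs
      simp only [τ0, dif_pos hs', smul_eq_mul]
    · rw [lift_of]; rfl) (fun x hx => hTX (Or.inr hx)) (hTX (Or.inl rfl))
  rw [h0] at this
  simpa using this.symm

theorem hall {ι : Type} [Finite ι] (h x : FreeGroup ι) (hx : x ∉ zpowers h) :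
    ∃ N : Subgroup (FreeGroup ι), N.Normal ∧ N.FiniteIndex ∧ ∀ k : ℤ, x⁻¹ * h ^ k ∉ N := by
  let Ω := FreeGroup ι ⧸ zpowers h
  let ω : Ω := ((1 : FreeGroup ι) : FreeGroup ι ⧸ zpowers h)
  have hS : ∀ g : FreeGroup ι, g ∈ closure (Set.range (FreeGroup.of : ι → FreeGroup ι)) := by
    intro g; rw [FreeGroup.closure_range_of]; trivial
  obtain ⟨T, hT, h1⟩ := trace _ h (hS h) ω
  obtain ⟨T', hT', h2⟩ := trace _ x (hS x) ω
  let X : Set Ω := insert ω (T ∪ T')
  have hX : Finite X := ((hT.union hT').insert _).to_subtype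
  have hσ : ∀ i : ι, ∃ σ : Equiv.Perm X, ∀ y : X, FreeGroup.of i • (y : Ω) ∈ X →
      (σ y : Ω) = FreeGroup.of i • (y : Ω) := by
    intro i
    obtain ⟨σ, hσ⟩ := Equiv.Perm.exists_extending_pair
      (α := {y : X // FreeGroup.of i • (y : Ω) ∈ X}) (fun y => y.1) (fun y => ⟨_, y.2⟩)
      Subtype.val_injective (fun a b hab =>
        Subtype.ext (Subtype.ext (MulAction.injective _ (congrArg Subtype.val hab))))
    exact ⟨σ, fun y hy => congrArg Subtype.val (hσ ⟨y, hy⟩)⟩
  choose σ hσ using hσ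
  let ρ : FreeGroup ι →* Equiv.Perm X := FreeGroup.lift σ
  have hρ : ∀ s ∈ Set.range (FreeGroup.of : ι → FreeGroup ι), ∀ y : X, s • (y : Ω) ∈ X →
      (ρ s y : Ω) = s • (y : Ω) := by
    rintro _ ⟨i, rfl⟩ y hy
    simp only [ρ, FreeGroup.lift_apply_of]
    exact hσ i y hy
  have m : ω ∈ X := Or.inl rfl
  have e1 := h1 X ρ hρ (fun z hz => Or.inr (Or.inl hz)) m
  have e2 := h2 X ρ hρ (fun z hz => Or.inr (Or.inr hz)) m
  have e3 : h • ω = ω := by
    change ((h * 1 : FreeGroup ι) : FreeGroup ι ⧸ zpowers h) = (1 : FreeGroup ι)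
    rw [QuotientGroup.eq]; simp
  refine ⟨ρ.ker, inferInstance, finiteIndex_ker ρ, fun k hk => hx ?_⟩
  rw [MonoidHom.mem_ker, map_mul, map_inv, inv_mul_eq_one, map_zpow] at hk
  have e4 : ρ h ⟨ω, m⟩ = ⟨ω, m⟩ := Subtype.ext (e1.trans e3)
  rw [hk, Equiv.Perm.zpow_apply_eq_self_of_apply_eq_self e4] at e2
  have e5 : ((1 : FreeGroup ι) : FreeGroup ι ⧸ zpowers h) = ((x * 1 : FreeGroup ι)) := e2
  simpa using QuotientGroup.eq.1 e5

end Pool.Agent.H.MP_1358e2_al
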