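import Pool.Agent.H.MP_1358e2_al.A

set_option autoImplicit false

namespace Pool.Agent.H.MP_1358e2_al

open Subgroup HNNExtension

lemma gen_zp {G : Type*} [Group G] (x : G) (y : zpowers x) :
    y ∈ zpowers (⟨x, mem_zpowers x⟩ : zpowers x) := by
  obtain ⟨_, k, rfl⟩ := y
  exact ⟨k, Subtype.ext (by simp)⟩

noncomputable def phi {G : Type*} [Group G] (x y : G) (h : orderOf x = orderOf y) :
    zpowers x ≃* zpowers y :=
  mulEquivOfOrderOfEq (gen_zp x) (gen_zp y) (by
    rw [← Subgroup.orderOf_coe, ← Subgroup.orderOf_coe]; exact h)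

lemma phi_compat {G H : Type*} [Group G] [Group H] (x y : G) (h : orderOf x = orderOf y)
    (f : G →* H) (τ : H) (e : τ * f x = f y * τ) (a : zpowers x) :
    τ * f a = f (phi x y h a : G) * τ := by
  obtain ⟨k, hk⟩ := gen_zp x a
  rw [← hk]
  simp only [map_zpow, phi, mulEquivOfOrderOfEq_apply_gen, SubgroupClass.coe_zpow]
  rw [← mul_inv_eq_iff_eq_mul] at e ⊢
  rw [← e, conj_zpow]

lemma phi_t {G : Type*} [Group G] (x y : G) (h : orderOf x = orderOf y) :
    (t : HNNExtension G _ _ (phi x y h)) * of x = of y * t := by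
  have := t_mul_of (φ := phi x y h) ⟨x, mem_zpowers x⟩
  simpa [phi] using this

abbrev F := FreeGroup (Fin 2)
def a : F := FreeGroup.of 0
def b : F := FreeGroup.of 1
def v : F := a * (b⁻¹ * a * b) * a⁻¹ * (b⁻¹ * a * b)⁻¹

def cyc (m : ℕ) : F →* Multiplicative (ZMod m) :=
  FreeGroup.lift ![Multiplicative.ofAdd 1, 1]
def dih (n : ℕ) : F →* DihedralGroup n :=
  FreeGroup.lift ![DihedralGroup.sr 0, DihedralGroup.r 1]

lemma cyc_a (m k : ℕ) : cyc m (a ^ k) = 1 ↔ m ∣ k := by
  rw [map_pow, show cyc m a = Multiplicative.ofAdd 1 by simp [cyc, a], ← ofAdd_nsmul,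
    ofAdd_eq_one, nsmul_one, ZMod.natCast_eq_zero_iff]

lemma cyc_v (m : ℕ) : cyc m v = 1 := by
  simp only [v, map_mul, map_inv]
  rw [mul_inv_eq_one, mul_inv_eq_iff_eq_mul, mul_comm]

lemma dih_a (n : ℕ) : dih n (a ^ 2) = 1 := by
  simp [dih, a, pow_two]

lemma dih_v (m k : ℕ) : dih (4 * m) (v ^ k) = 1 ↔ m ∣ k := by
  have : dih (4 * m) v = DihedralGroup.r 4 := by
    simp [dih, v, a, b]
    norm_num
  rw [map_pow, this, DihedralGroup.r_pow, DihedralGroup.one_def, DihedralGroup.r.injEq]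
  have h2 : ((4 : ZMod (4 * m)) * k) = ((4 * k : ℕ) : ZMod (4 * m)) := by push_cast; ring
  rw [h2, ZMod.natCast_eq_zero_iff, Nat.mul_dvd_mul_iff_left (by norm_num)]

lemma ord_av : orderOf a = orderOf v := by
  rw [orderOf_eq_orderOf_iff]
  intro k
  constructor
  · intro h
    have := (cyc_a 0 k).1 (by rw [h, map_one])
    rw [zero_dvd_iff.1 this, pow_zero]
  · intro h
    have := (dih_v 0 k).1 (by rw [h, map_one])
    rw [zero_dvd_iff.1 this, pow_zero]

lemma sep (L : List (F × F)) (hL : ∀ p ∈ L, p.2 ∉ zpowers p.1) :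
    ∃ N : Subgroup F, N.Normal ∧ N.FiniteIndex ∧ ∀ p ∈ L, ∀ k : ℤ, p.2⁻¹ * p.1 ^ k ∉ N := by
  induction L with
  | nil => exact ⟨⊤, inferInstance, inferInstance, by simp⟩
  | cons p L ih =>
    obtain ⟨N, h1, h2, h3⟩ := ih (fun q hq => hL q (List.mem_cons_of_mem _ hq))
    obtain ⟨N', h1', h2', h3'⟩ := hall p.1 p.2 (hL p List.mem_cons_self)
    refine ⟨N ⊓ N', inferInstance, inferInstance, fun q hq k hk => ?_⟩
    rcases List.mem_cons.1 hq with rfl | hq
    · exact h3' k hk.2
    · exact h3 q hq k hk.1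

lemma quot (L : List (F × F)) (hL : ∀ p ∈ L, p.2 ∉ zpowers p.1) :
    ∃ (Q : Type) (_ : Group Q) (_ : Finite Q) (π : F →* Q), orderOf (π a) = orderOf (π v) ∧
      ∀ p ∈ L, π p.2 ∉ zpowers (π p.1) := by
  obtain ⟨N, h1, h2, h3⟩ := sep L hL
  let m := 2 * N.index
  have hm : m ≠ 0 := mul_ne_zero two_ne_zero h2.index_ne_zero
  have : NeZero m := ⟨hm⟩
  have : NeZero (4 * m) := ⟨mul_ne_zero (by norm_num) hm⟩
  refine ⟨(F ⧸ N) × Multiplicative (ZMod m) × DihedralGroup (4 * m), inferInstance, inferInstance,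
    (QuotientGroup.mk' N).prod ((cyc m).prod (dih (4 * m))), ?_, fun p hp ⟨k, hk⟩ => h3 p hp k ?_⟩
  · have hN : ∀ (x : F) (k : ℕ), m ∣ k → QuotientGroup.mk' N (x ^ k) = 1 := by
      rintro x _ ⟨c, rfl⟩
      rw [QuotientGroup.mk'_apply, QuotientGroup.eq_one_iff,
        show m * c = N.index * (2 * c) by simp only [m]; ring, pow_mul]
      exact N.pow_mem (N.pow_index_mem x) _
    rw [orderOf_eq_orderOf_iff]
    intro k
    rw [← map_pow, ← map_pow]
    simp only [MonoidHom.prod_apply, Prod.mk_eq_one, cyc_a, dih_v]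
    constructor
    · rintro ⟨-, h, -⟩
      exact ⟨hN _ _ h, by rw [map_pow, cyc_v, one_pow], h⟩
    · rintro ⟨-, -, h⟩
      refine ⟨hN _ _ h, h, ?_⟩
      obtain ⟨c, rfl⟩ := h
      rw [show m * c = 2 * (N.index * c) by simp only [m]; ring, pow_mul, map_pow, dih_a, one_pow]
  · simp only at hk
    rw [← map_zpow] at hk
    have := congrArg Prod.fst hk
    simp only [MonoidHom.prod_apply, QuotientGroup.mk'_apply] at this
    exact QuotientGroup.eq.1 this.symm

abbrev E := HNNExtension F (zpowers a) (zpowers v) (phi a v ord_av)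

theorem E_rf (g : E) (hg : g ≠ 1) :
    ∃ (P : Type) (_ : Group P) (_ : Finite P) (ρ : E →* P), ρ g ≠ 1 := by
  classical
  obtain ⟨d⟩ := NormalWord.TransversalPair.nonempty F (zpowers a) (zpowers v)
  obtain ⟨w, hw⟩ : ∃ w : NormalWord.ReducedWord F (zpowers a) (zpowers v),
      w.prod (phi a v ord_av) = g :=
    ⟨(NormalWord.equiv (phi a v ord_av) d g).toReducedWord,
      (NormalWord.equiv (phi a v ord_av) d).left_inv g⟩
  let gen : ℤˣ → F := fun u => if u = 1 then a else v
  have hgen : ∀ u, toSubgroup (zpowers a) (zpowers v) u = zpowers (gen u) := fun u => by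
    simp only [toSubgroup, gen]; split_ifs <;> rfl
  let L : List (F × F) := ((1, w.head) :: w.toList.map (fun p => (gen p.1, p.2))).filter
    (fun p => p.2 ∉ zpowers p.1)
  obtain ⟨Q, _, _, π, ho, hπ⟩ := quot L (fun p hp => by simpa using (List.mem_filter.1 hp).2)
  have hgen' : ∀ u, toSubgroup (zpowers (π a)) (zpowers (π v)) u = zpowers (π (gen u)) :=
    fun u => by simp only [toSubgroup, gen]; split_ifs <;> rfl
  let Φ : E →* HNNExtension Q _ _ (phi (π a) (π v) ho) :=
    lift (of.comp π) t (phi_compat a v ord_av _ _ (phi_t _ _ ho))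
  let w' : NormalWord.ReducedWord Q (zpowers (π a)) (zpowers (π v)) :=
    { head := π w.head
      toList := w.toList.map (fun p => (p.1, π p.2))
      chain := by
        rw [List.isChain_map]
        refine w.chain.imp_of_mem_imp (fun p q hp _ h1 h2 => h1 ?_)
        by_contra h3
        rw [hgen] at h3
        rw [hgen'] at h2
        exact hπ (gen p.1, p.2) (List.mem_filter.2 ⟨List.mem_cons_of_mem _
          (List.mem_map.2 ⟨p, hp, rfl⟩), by simpa using h3⟩) h2 }
  have e : Φ g = w'.prod (phi (π a) (π v) ho) := by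
    rw [← hw]
    have h1 : ∀ x, Φ (of x) = of (π x) := fun x => lift_of _ _ _ x
    have h2 : Φ t = t := lift_t _ _ _
    rw [NormalWord.ReducedWord.prod, NormalWord.ReducedWord.prod, map_mul, map_list_prod, h1,
      List.map_map, List.map_map]
    congr 2
    apply List.map_congr_left
    intro p _
    simp only [Function.comp_apply, map_mul, map_zpow, h1, h2]
  have hne : Φ g ≠ 1 := by
    intro h0
    rw [e] at h0
    have h1 := ReducedWord.toList_eq_nil_of_mem_of_range _ w' (by rw [h0]; exact one_mem _)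
    have h2 : w.toList = [] := by simpa [w'] using h1
    have h3 : π w.head = 1 := by
      apply of_injective (phi (π a) (π v) ho)
      simpa [NormalWord.ReducedWord.prod, h2, w'] using h0
    have h4 : w.head = 1 := by
      by_contra h5
      exact hπ (1, w.head) (List.mem_filter.2 ⟨List.mem_cons_self, by simpa using h5⟩)
        (by simp [h3])
    apply hg
    rw [← hw]
    simp [NormalWord.ReducedWord.prod, h2, h4]
  obtain ⟨P, _, _, ρ, hρ⟩ := hnn_finite _ _ _ _ hne
  exact ⟨P, inferInstance, inferInstance, ρ.comp Φ, hρ⟩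

def rel : FreeGroup (Fin 3) :=
  FreeGroup.of 2 * FreeGroup.of 0 * (FreeGroup.of 2)⁻¹ *
    (FreeGroup.of 0 * ((FreeGroup.of 1)⁻¹ * FreeGroup.of 0 * FreeGroup.of 1) * (FreeGroup.of 0)⁻¹ *
      ((FreeGroup.of 1)⁻¹ * FreeGroup.of 0 * FreeGroup.of 1)⁻¹)⁻¹

abbrev G := PresentedGroup ({rel} : Set (FreeGroup (Fin 3)))

lemma rel_G : (PresentedGroup.of 2 : G) * PresentedGroup.of 0 * (PresentedGroup.of 2)⁻¹ =
    PresentedGroup.of 0 * ((PresentedGroup.of 1)⁻¹ * PresentedGroup.of 0 * PresentedGroup.of 1) *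
      (PresentedGroup.of 0)⁻¹ *
      ((PresentedGroup.of 1)⁻¹ * PresentedGroup.of 0 * PresentedGroup.of 1)⁻¹ := by
  have : PresentedGroup.mk ({rel} : Set (FreeGroup (Fin 3))) rel = 1 :=
    PresentedGroup.one_of_mem rfl
  rw [← mul_inv_eq_one]
  exact this

lemma map_v {H : Type*} [Group H] (f : F →* H) : f v = f a * ((f b)⁻¹ * f a * f b) * (f a)⁻¹ *
    ((f b)⁻¹ * f a * f b)⁻¹ := by
  simp only [v, map_mul, map_inv]

noncomputable def toE : G →* E := PresentedGroup.toGroup (f := ![of a, of b, t]) (by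
  rintro _ rfl
  have := phi_t a v ord_av
  rw [← mul_inv_eq_iff_eq_mul] at this
  simp only [rel, map_mul, map_inv, FreeGroup.lift_apply_of]
  change t * of a * t⁻¹ * (of a * ((of b)⁻¹ * of a * of b) * (of a)⁻¹ *
    ((of b)⁻¹ * of a * of b)⁻¹)⁻¹ = 1
  rw [this, mul_inv_eq_one]
  exact map_v of)

noncomputable def ofE : E →* G :=
  lift (FreeGroup.lift ![PresentedGroup.of 0, PresentedGroup.of 1]) (PresentedGroup.of 2)
    (phi_compat a v ord_av _ _ (by
      rw [← mul_inv_eq_iff_eq_mul]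
      simpa [v, a, b] using rel_G))

lemma ofE_toE : ofE.comp toE = MonoidHom.id G := by
  have h1 : ∀ x, ofE (of x) = FreeGroup.lift ![PresentedGroup.of 0, PresentedGroup.of 1] x :=
    fun x => lift_of _ _ _ x
  have h2 : ofE t = PresentedGroup.of 2 := lift_t _ _ _
  have h3 : ∀ i, toE (PresentedGroup.of i) = ![of a, of b, t] i := fun i =>
    PresentedGroup.toGroup.of _
  ext i
  rw [MonoidHom.comp_apply, h3]
  fin_cases i
  · exact (h1 a).trans (by simp [a])
  · exact (h1 b).trans (by simp [b])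
  · exact h2

lemma toE_inj : Function.Injective toE :=
  Function.LeftInverse.injective (g := ofE) fun x => DFunLike.congr_fun ofE_toE x

lemma a_ne : (PresentedGroup.of 0 : G) ≠ 1 := by
  intro h
  have h1 := congrArg toE h
  have h3 : toE (PresentedGroup.of 0) = of a := PresentedGroup.toGroup.of _
  have h2 : (of a : E) = of 1 := by rw [← h3, h1, map_one, map_one]
  have h3 := of_injective _ h2
  have := (cyc_a 0 1).1 (by rw [h3]; simp)
  simp at this

lemma a_der (k : ℕ) : (PresentedGroup.of 0 : G) ∈ derivedSeries G k := by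
  induction k with
  | zero => trivial
  | succ k ih =>
    have hn := derivedSeries_normal G k
    have hn' := derivedSeries_normal G (k + 1)
    have h1 : (PresentedGroup.of 1 : G)⁻¹ * PresentedGroup.of 0 * PresentedGroup.of 1 ∈
        derivedSeries G k := hn.conj_mem' _ ih _
    have h2 := Subgroup.commutator_mem_commutator ih h1
    rw [← derivedSeries_succ, commutatorElement_def, ← rel_G] at h2
    simpa [mul_assoc] using hn'.conj_mem' _ h2 (PresentedGroup.of 2)

end Pool.Agent.H.MP_1358e2_al
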